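import Mathlib
import Pool.Agent.H41.ET.Defs

/-!
# E8 of MP_fe131b_co (helper41): splitting into groups
-/

set_option autoImplicit false

namespace Pool.Agent.H553.ET

open Pool.Agent.H41.ET

theorem grp : S_GRP := by
  classical
  intro V _ _ N C θ g hN hC
  have hlin : ∃ f : V → ℕ, Function.Injective f :=
    ⟨fun x => ((Fintype.equivFin V) x : ℕ), fun x y h =>
      (Fintype.equivFin V).injective (Fin.val_injective h)⟩
  obtain ⟨f, hf⟩ := hlin
  set D : Finset V := Finset.univ.filter (fun x => x ∈ C ∧ (N x ∉ C ∨ f x < f (N x))) with hD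
  have hDC : ∀ x ∈ D, x ∈ C := by
    intro x hx
    rw [hD, Finset.mem_filter] at hx
    exact hx.2.1
  have hDN : ∀ x ∈ D, N x ∉ D := by
    intro x hx hNx
    rw [hD, Finset.mem_filter] at hx hNx
    have h1 : f x < f (N x) := by
      rcases hx.2.2 with h | h
      · exact absurd hNx.2.1 h
      · exact h
    have h2 : f (N x) < f (N (N x)) := by
      rcases hNx.2.2 with h | h
      · rw [hN.1 x] at h
        exact absurd hx.2.1 h
      · exact h
    rw [hN.1 x] at h2
    omega
  have hcov : C ⊆ ((D ∪ D.image N : Finset V) : Set V) := by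
    intro x hx
    rw [Finset.coe_union, Finset.coe_image]
    by_cases hxD : x ∈ D
    · exact Or.inl hxD
    · right
      refine ⟨N x, ?_, hN.1 x⟩
      have h1 : ¬ (N x ∉ C ∨ f x < f (N x)) := by
        intro h
        apply hxD
        rw [hD, Finset.mem_filter]
        exact ⟨Finset.mem_univ _, hx, h⟩
      push Not at h1
      have h2 : f (N x) ≠ f x := fun h => hN.2 x (hf h)
      rw [Finset.mem_coe, hD, Finset.mem_filter]
      refine ⟨Finset.mem_univ _, h1.1, Or.inr ?_⟩
      rw [hN.1 x]
      omega
  have hcard : C.ncard ≤ 2 * D.card := by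
    have h1 : C.ncard ≤ (((D ∪ D.image N : Finset V) : Set V)).ncard :=
      Set.ncard_le_ncard hcov (Finset.finite_toSet _)
    rw [Set.ncard_coe_finset] at h1
    have h2 : (D ∪ D.image N).card ≤ D.card + (D.image N).card := Finset.card_union_le _ _
    have h3 : (D.image N).card ≤ D.card := Finset.card_image_le
    omega
  have hle : θ * g ≤ D.card := by
    have : 2 * θ * g = 2 * (θ * g) := by ring
    omega
  let emb : Fin θ × Fin g → V := fun ij =>
    (D.equivFin.symm (Fin.castLE hle (finProdFinEquiv ij))).val
  have hemb : Function.Injective emb := by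
    intro a b hab
    have h1 := Subtype.val_injective hab
    have h2 := D.equivFin.symm.injective h1
    have h3 := Fin.castLE_injective hle h2
    exact finProdFinEquiv.injective h3
  have hmem : ∀ a, emb a ∈ D := fun a =>
    (D.equivFin.symm (Fin.castLE hle (finProdFinEquiv a))).2
  refine ⟨fun i => Finset.univ.image fun j => emb (i, j), ?_, ?_, ?_⟩
  · intro i x hx
    obtain ⟨j, -, rfl⟩ := Finset.mem_image.1 hx
    refine ⟨hDC _ (hmem _), fun h => ?_⟩
    obtain ⟨j', -, hj'⟩ := Finset.mem_image.1 h
    apply hDN _ (hmem (i, j))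
    rw [← hj']
    exact hmem _
  · intro i
    rw [Finset.card_image_of_injective, Finset.card_univ, Fintype.card_fin]
    intro j j' hjj
    have := hemb hjj
    exact (Prod.mk.injEq _ _ _ _ ▸ this).2
  · intro i j hij
    rw [Finset.disjoint_left]
    intro x hx hy
    obtain ⟨a, -, ha⟩ := Finset.mem_image.1 hx
    obtain ⟨b, -, hb⟩ := Finset.mem_image.1 hy
    have h1 := hemb (ha.trans hb.symm)
    exact hij (congrArg Prod.fst h1)

end Pool.Agent.H553.ET
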